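import Pool.Agent.helper97.AS.Spec

/-!
# Row EXT: the periodic extension of a stretch
-/

set_option autoImplicit false

namespace Pool.Agent.helper97.AS

open Pool.Agent.helper20.LB (Step F IsSq Same Bd co)

theorem EXT_divmod (p z : ℤ) (hp : 1 ≤ p) :
    ((z + 1) / p = z / p ∧ (z + 1) % p = z % p + 1) ∨
      (z % p = p - 1 ∧ (z + 1) % p = 0 ∧ (z + 1) / p = z / p + 1) := by
  have h0 : 0 ≤ z % p := Int.emod_nonneg z (by omega)
  have h1 : z % p < p := Int.emod_lt_of_pos z (by omega)
  have h2 : z % p + p * (z / p) = z := Int.emod_add_mul_ediv z p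
  have e0 : 0 ≤ (z + 1) % p := Int.emod_nonneg (z + 1) (by omega)
  have e1 : (z + 1) % p < p := Int.emod_lt_of_pos (z + 1) (by omega)
  have e2 : (z + 1) % p + p * ((z + 1) / p) = z + 1 := Int.emod_add_mul_ediv (z + 1) p
  by_cases h : z % p + 1 < p
  · left
    have hq : (z + 1) / p = z / p := by
      have h3 : z + 1 = (z % p + 1) + p * (z / p) := by omega
      rw [h3, Int.add_mul_ediv_left _ _ (by omega : p ≠ 0), Int.ediv_eq_zero_of_lt (by omega) h]
      omega
    refine ⟨hq, ?_⟩
    rw [hq] at e2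
    omega
  · right
    have h4 : z % p = p - 1 := by omega
    have hq : (z + 1) / p = z / p + 1 := by
      have h3 : z + 1 = 0 + p * (z / p + 1) := by
        rw [Int.mul_add, Int.mul_one]; omega
      rw [h3, Int.add_mul_ediv_left _ _ (by omega : p ≠ 0)]
      simp
    refine ⟨h4, ?_, hq⟩
    rw [hq, Int.mul_add, Int.mul_one] at e2
    omega

theorem EXT_lin (f : ℤ → ℤ) (x p M : ℤ) (hp : 1 ≤ p)
    (hper : ∀ y, x ≤ y → y ≤ x + M → f (y + p) = f y + (f (x + p) - f x)) (e : ℤ) (he : 0 ≤ e) :
    ∀ k : ℕ, x + e + k * p ≤ x + p + M → f (x + e + k * p) = f (x + e) + (f (x + p) - f x) * k := by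
  intro k
  induction k with
  | zero => intro _; simp
  | succ k ih =>
    intro h
    have hkp : 0 ≤ (k : ℤ) * p := by positivity
    have h1 : x + e + ((k + 1 : ℕ) : ℤ) * p = x + e + k * p + p := by push_cast; ring
    rw [h1] at h ⊢
    have h2 := ih (by omega)
    rw [hper _ (by omega) (by omega), h2]
    push_cast
    ring

theorem EXT : EXT_stmt := by
  intro f x p M hf hp hM hper
  refine ⟨fun y => f (x + (y - x) % p) + (f (x + p) - f x) * ((y - x) / p), ⟨?_, hp, ?_⟩, ?_⟩
  · intro y
    have hz : y + 1 - x = (y - x) + 1 := by ring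
    show f (x + (y - x) % p) + (f (x + p) - f x) * ((y - x) / p) ≤
        f (x + (y + 1 - x) % p) + (f (x + p) - f x) * ((y + 1 - x) / p) ∧
      f (x + (y + 1 - x) % p) + (f (x + p) - f x) * ((y + 1 - x) / p) ≤
        f (x + (y - x) % p) + (f (x + p) - f x) * ((y - x) / p) + 1
    rw [hz]
    rcases EXT_divmod p (y - x) hp with ⟨h1, h2⟩ | ⟨h1, h2, h3⟩
    · rw [h1, h2, ← add_assoc]
      obtain ⟨h, h'⟩ := hf (x + (y - x) % p)
      constructor <;> linarith
    · rw [h1, h2, h3]
      have h4 : x + (p - 1) + 1 = x + p := by ring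
      have h5 := hf (x + (p - 1))
      rw [h4] at h5
      have h6 : (f (x + p) - f x) * ((y - x) / p + 1) = (f (x + p) - f x) * ((y - x) / p) + (f (x + p) - f x) := by
        ring
      rw [h6, add_zero]
      obtain ⟨h, h'⟩ := h5
      constructor <;> linarith
  · intro y
    show f (x + (y + p - x) % p) + (f (x + p) - f x) * ((y + p - x) / p) =
      f (x + (y - x) % p) + (f (x + p) - f x) * ((y - x) / p) + (f (x + p) - f x)
    have hz : y + p - x = (y - x) + p * 1 := by ring
    rw [hz, Int.add_mul_emod_self_left, Int.add_mul_ediv_left _ _ (by omega : p ≠ 0)]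
    ring
  · intro y hxy hy
    show f (x + (y - x) % p) + (f (x + p) - f x) * ((y - x) / p) = f y
    have h0 : 0 ≤ (y - x) % p := Int.emod_nonneg _ (by omega)
    have h2 : (y - x) % p + p * ((y - x) / p) = y - x := Int.emod_add_mul_ediv (y - x) p
    have hq : 0 ≤ (y - x) / p := Int.ediv_nonneg (by omega) (by omega)
    obtain ⟨k, hk⟩ := Int.eq_ofNat_of_zero_le hq
    have hk' : (y - x) / p = (k : ℤ) := hk
    rw [hk'] at h2 ⊢
    have h3 : x + (y - x) % p + (k : ℤ) * p = y := by
      have : p * (k : ℤ) = (k : ℤ) * p := mul_comm _ _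
      omega
    have h4 := EXT_lin f x p M hp hper ((y - x) % p) h0 k (by rw [h3]; exact hy)
    rw [h3] at h4
    exact h4.symm

end Pool.Agent.helper97.AS
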